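import Pool.Agent.OPG.Stmts

set_option autoImplicit false

/-! Squad OPG, row LST. -/

namespace Pool.Agent.OPG.H58

open Pool.Agent.OPG

lemma lsum_append (L1 L2 : List (ℕ × ℕ)) : lsum (L1 ++ L2) = lsum L1 + lsum L2 := by
  simp [lsum, List.map_append, List.sum_append]

lemma lsum_swap (L : List (ℕ × ℕ)) : lsum (L.map Prod.swap) = - lsum L := by
  induction L with
  | nil => simp [lsum]
  | cons a L ih =>
    simp only [lsum, List.map_cons, List.sum_cons, Prod.fst_swap, Prod.snd_swap] at ih ⊢
    rw [ih]; ring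

theorem lst : LstStmt := by
  intro l P hl hP
  obtain ⟨m, rfl⟩ : ∃ m, l = m + 1 := ⟨l - 1, by omega⟩
  clear hl
  induction m generalizing P with
  | zero =>
    refine ⟨[(P + 2, P)], by simp, ?_, ?_⟩
    · intro x hx
      rw [List.mem_singleton] at hx
      subst hx
      refine ⟨hP.add_even (by decide), hP, by simp, by simp, le_refl _, by simp⟩
    · simp [lsum, FD]
  | succ m ih =>
    obtain ⟨L1, h1, h2, h3⟩ := ih (P + 2) (hP.add_even (by decide))
    obtain ⟨L2, h4, h5, h6⟩ := ih P hP
    refine ⟨L1 ++ L2.map Prod.swap, ?_, ?_, ?_⟩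
    · rw [List.length_append, List.length_map, h1, h4]
      simp only [Nat.add_sub_cancel]
      rw [pow_succ]; ring
    · intro x hx
      rw [List.mem_append, List.mem_map] at hx
      rcases hx with hx | ⟨y, hy, rfl⟩
      · obtain ⟨a, b, c, d, e, f⟩ := h2 x hx
        exact ⟨a, b, by omega, by omega, by omega, by omega⟩
      · obtain ⟨a, b, c, d, e, f⟩ := h5 y hy
        simp only [Prod.fst_swap, Prod.snd_swap]
        exact ⟨b, a, by omega, by omega, by omega, by omega⟩
    · rw [lsum_append, lsum_swap, h3, h6]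
      have : FD (m + 1 + 1) (P : ℝ) = FD (m + 1) ((P : ℝ) + 2) - FD (m + 1) (P : ℝ) := rfl
      rw [this]
      push_cast
      ring

end Pool.Agent.OPG.H58
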